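import Pool.Agent.Helper75.GR.Stmts

/-!
# The discrete inequality gives the star shape (MP_d210aa_gt)
-/

open Set Filter Topology

namespace Pool.Agent.Helper75.GR

/-- The second difference of a function whose derivative is `v`, with `v` differentiable. -/
theorem mod_second {U v : ℝ → ℝ} {t w K : ℝ} (ht : 0 < t)
    (hU : ∀ s, 0 < s → HasDerivAt U (v s) s) (hv : HasDerivAt v w t)
    (h : ∃ e0 : ℝ, 0 < e0 ∧ ∀ e, 0 < e → e < e0 → K * e ^ 2 ≤ U (t + e) + U (t - e) - 2 * U t) :
    K ≤ w := by
  by_contra hK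
  push Not at hK
  obtain ⟨c, hc1, hc2⟩ := exists_between hK
  -- eventually the slope of `v` is less than `c`
  have h1 : ∀ᶠ s in 𝓝[≠] t, slope v t s < c :=
    (hasDerivAt_iff_tendsto_slope.1 hv).eventually_lt_const hc1
  rw [eventually_nhdsWithin_iff, Metric.eventually_nhds_iff] at h1
  obtain ⟨r, hr, h1⟩ := h1
  obtain ⟨e0, he0, h0⟩ := h
  set e1 := min (min r e0) t with he1
  have he1p : 0 < e1 := lt_min (lt_min hr he0) ht
  have hr1 : e1 ≤ r := (min_le_left _ _).trans (min_le_left _ _)
  have he01 : e1 ≤ e0 := (min_le_left _ _).trans (min_le_right _ _)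
  have ht1 : e1 ≤ t := min_le_right _ _
  have hup : ∀ e, 0 < e → e < e1 → v (t + e) - v t ≤ c * e := by
    intro e he hee
    have := h1 (y := t + e) (by simp [abs_of_pos he]; linarith) (by simp; linarith)
    rw [slope_def_field, div_lt_iff₀ (by linarith)] at this
    nlinarith
  have hdn : ∀ e, 0 < e → e < e1 → v t - v (t - e) ≤ c * e := by
    intro e he hee
    have := h1 (y := t - e) (by simp [abs_of_pos he]; linarith) (by simp; linarith)
    rw [slope_def_field] at this
    have h2 : (v (t - e) - v t) / (t - e - t) = (v t - v (t - e)) / e := by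
      rw [show t - e - t = -e by ring, div_neg, ← neg_div, neg_sub]
    rw [h2, div_lt_iff₀ he] at this
    linarith
  -- the function psi
  set ψ : ℝ → ℝ := fun e => U (t + e) + U (t - e) - 2 * U t - c * e ^ 2 with hψ
  have hd : ∀ e, 0 ≤ e → e < e1 → HasDerivAt ψ (v (t + e) - v (t - e) - 2 * c * e) e := by
    intro e he hee
    have ha : HasDerivAt (fun e => U (t + e)) (v (t + e)) e := by
      have := (hU (t + e) (by linarith)).comp_const_add t e
      simpa using this
    have hb : HasDerivAt (fun e => U (t - e)) (-v (t - e)) e := by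
      have := (hU (t - e) (by linarith)).comp_const_sub t e
      simpa using this
    have hcc : HasDerivAt (fun e : ℝ => c * e ^ 2) (c * (2 * e)) e := by
      simpa using (hasDerivAt_pow 2 e).const_mul c
    have := ((ha.add hb).sub_const (2 * U t)).sub hcc
    refine (this.congr_deriv (by ring)).congr_of_eventuallyEq (Eventually.of_forall fun x => ?_)
    simp [hψ]
  set e2 := e1 / 2 with he2
  have he2p : 0 < e2 := by positivity
  have he21 : e2 < e1 := by simp only [he2]; linarith
  have hanti : AntitoneOn ψ (Icc 0 e2) := by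
    refine antitoneOn_of_deriv_nonpos (convex_Icc _ _) ?_ ?_ ?_
    · intro e he
      exact (hd e he.1 (lt_of_le_of_lt he.2 he21)).continuousAt.continuousWithinAt
    · intro e he
      rw [interior_Icc] at he
      exact (hd e he.1.le (he.2.trans he21)).differentiableAt.differentiableWithinAt
    · intro e he
      rw [interior_Icc] at he
      rw [(hd e he.1.le (he.2.trans he21)).deriv]
      have := hup e he.1 (he.2.trans he21)
      have := hdn e he.1 (he.2.trans he21)
      linarith
  have hψ0 : ψ 0 = 0 := by simp [hψ]; ring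
  have h3 : ψ e2 ≤ ψ 0 := hanti (left_mem_Icc.2 he2p.le) (right_mem_Icc.2 he2p.le) he2p.le
  rw [hψ0] at h3
  have h4 := h0 e2 he2p (he21.trans_le he01)
  simp only [hψ] at h3
  nlinarith [pow_pos he2p 2]

theorem st_MOD : ST_MOD := by
  intro f p hf hfc hpc hp0 hp hfd hpd hdis t u ht htu
  obtain ⟨p', hpd⟩ := hpd
  -- U and its derivative
  set U : ℝ → ℝ := fun s => -Real.log (f s) with hUdef
  set v : ℝ → ℝ := fun s => p s / (2 * s * f s) with hvdef
  have hU : ∀ s, 0 < s → HasDerivAt U (v s) s := by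
    intro s hs
    have := ((hfd s hs).log (hf s hs.le).ne').neg
    refine this.congr_deriv ?_
    simp only [hvdef]
    have := (hf s hs.le).ne'
    field_simp
  have hvd : ∀ s, 0 < s → ∃ w, HasDerivAt v w s := by
    intro s hs
    refine ⟨_, (hpd s hs).div (((hasDerivAt_id s).const_mul 2).mul (hfd s hs)) ?_⟩
    have := hf s hs.le
    simp
    constructor
    · exact hs.ne'
    · exact this.ne'
  have hkey : ∀ s, 0 < s → ∀ w, HasDerivAt v w s → v s / (2 * s) ≤ w := by
    intro s hs w hw
    have hθ : ∀ θ : ℝ, 0 < θ → θ < 1 → θ * (v s / (2 * s)) ≤ w := by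
      intro θ h0 h1
      refine mod_second hs hU hw ?_
      obtain ⟨e0, he0, h⟩ := hdis s θ hs h0 h1
      refine ⟨min e0 s, lt_min he0 hs, fun e he hee => ?_⟩
      have hes : e < s := hee.trans_le (min_le_right _ _)
      have h2 := h e he (hee.trans_le (min_le_left _ _))
      have hfp := hf (s + e) (by linarith)
      have hfm := hf (s - e) (by linarith)
      have hfs := hf s hs.le
      have hsq : 0 < √(f (s + e) * f (s - e)) := Real.sqrt_pos.2 (mul_pos hfp hfm)
      set q := f s - θ / 2 * e ^ 2 * (p s / (4 * s ^ 2)) with hq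
      have hqp : 0 < q := hsq.trans_le h2
      have h3 : Real.log (√(f (s + e) * f (s - e))) ≤ Real.log q := Real.log_le_log hsq h2
      rw [Real.log_sqrt (mul_pos hfp hfm).le, Real.log_mul hfp.ne' hfm.ne'] at h3
      have h4 : Real.log q ≤ Real.log (f s) + (q / f s - 1) := by
        have := Real.log_le_sub_one_of_pos (div_pos hqp hfs)
        rw [Real.log_div hqp.ne' hfs.ne'] at this
        linarith
      have h5 : q / f s - 1 = -(θ / 2 * e ^ 2 * (v s / (2 * s))) := by
        simp only [hq, hvdef]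
        have := hfs.ne'
        field_simp
        ring
      simp only [hUdef]
      rw [h5] at h4
      nlinarith
    have h1 : Tendsto (fun θ : ℝ => θ * (v s / (2 * s))) (𝓝[<] 1) (𝓝 (1 * (v s / (2 * s)))) :=
      ((continuous_id.mul continuous_const).tendsto 1).mono_left nhdsWithin_le_nhds
    rw [one_mul] at h1
    refine le_of_tendsto h1 ?_
    have : ∀ᶠ θ in 𝓝[<] (1 : ℝ), 0 < θ ∧ θ < 1 := by
      refine (eventually_nhdsWithin_of_eventually_nhds (lt_mem_nhds one_pos)).and ?_
      exact eventually_mem_nhdsWithin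
    filter_upwards [this] with θ h using hθ θ h.1 h.2
  -- v s * s ^ (-1/2) is monotone
  have hmono : MonotoneOn (fun s => v s * s ^ (-(1 / 2) : ℝ)) (Ioi 0) := by
    choose! w hw using hvd
    have hder : ∀ s, 0 < s → HasDerivAt (fun s => v s * s ^ (-(1 / 2) : ℝ))
        (w s * s ^ (-(1 / 2) : ℝ) + v s * (-(1 / 2) * s ^ (-(1 / 2) - 1 : ℝ))) s := by
      intro s hs
      exact (hw s hs).mul (Real.hasDerivAt_rpow_const (Or.inl hs.ne'))
    refine monotoneOn_of_deriv_nonneg (convex_Ioi 0) ?_ ?_ ?_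
    · intro s hs
      exact (hder s hs).continuousAt.continuousWithinAt
    · intro s hs
      rw [interior_Ioi] at hs
      exact (hder s hs).differentiableAt.differentiableWithinAt
    · intro s hs
      rw [interior_Ioi] at hs
      have hs' : (0:ℝ) < s := hs
      rw [(hder s hs').deriv]
      have hk := hkey s hs' (w s) (hw s hs')
      have e1 : s ^ (-(1 / 2) - 1 : ℝ) = s ^ (-(1 / 2) : ℝ) / s := by
        rw [Real.rpow_sub hs', Real.rpow_one]
      rw [e1]
      have hpos : 0 < s ^ (-(1 / 2) : ℝ) := Real.rpow_pos_of_pos hs' _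
      have : w s * s ^ (-(1 / 2) : ℝ) + v s * (-(1 / 2) * (s ^ (-(1 / 2) : ℝ) / s))
          = (w s - v s / (2 * s)) * s ^ (-(1 / 2) : ℝ) := by
        field_simp
        ring
      rw [this]
      exact mul_nonneg (by linarith) hpos.le
  -- W(x) = U(x^(2/3)) is convex
  set W : ℝ → ℝ := fun x => U (x ^ (2 / 3 : ℝ)) with hWdef
  have hWd : ∀ x, 0 < x → HasDerivAt W (v (x ^ (2 / 3 : ℝ)) * (2 / 3 * x ^ (2 / 3 - 1 : ℝ))) x := by
    intro x hx
    have h1 : HasDerivAt (fun y : ℝ => y ^ (2 / 3 : ℝ)) (2 / 3 * x ^ (2 / 3 - 1 : ℝ)) x :=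
      Real.hasDerivAt_rpow_const (Or.inl hx.ne')
    exact HasDerivAt.comp (h₂ := U) (h := fun y : ℝ => y ^ (2 / 3 : ℝ)) x
      (hU (x ^ (2 / 3 : ℝ)) (Real.rpow_pos_of_pos hx _)) h1
  have hWc : ContinuousOn W (Ici 0) := by
    have h1 : ContinuousOn U (Ici 0) :=
      (ContinuousOn.log hfc fun s hs => (hf s hs).ne').neg
    refine h1.comp (Real.continuous_rpow_const (by norm_num)).continuousOn ?_
    intro x hx
    exact Real.rpow_nonneg hx _
  have hconv : ConvexOn ℝ (Ici 0) W := by
    refine MonotoneOn.convexOn_of_deriv (convex_Ici 0) hWc ?_ ?_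
    · intro x hx
      rw [interior_Ici] at hx
      exact (hWd x hx).differentiableAt.differentiableWithinAt
    · rw [interior_Ici]
      intro x hx y hy hxy
      have hx' : (0:ℝ) < x := hx
      have hy' : (0:ℝ) < y := hy
      rw [(hWd x hx').deriv, (hWd y hy').deriv]
      have hm := hmono (show x ^ (2 / 3 : ℝ) ∈ Ioi (0:ℝ) from Real.rpow_pos_of_pos hx' _)
        (show y ^ (2 / 3 : ℝ) ∈ Ioi (0:ℝ) from Real.rpow_pos_of_pos hy' _)
        (Real.rpow_le_rpow hx'.le hxy (by norm_num))
      simp only at hm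
      have ex : ∀ z : ℝ, 0 < z → (z ^ (2 / 3 : ℝ)) ^ (-(1 / 2) : ℝ) = z ^ (2 / 3 - 1 : ℝ) := by
        intro z hz
        rw [← Real.rpow_mul hz.le]
        norm_num
      rw [ex x hx', ex y hy'] at hm
      nlinarith
  -- conclusion
  set X := t ^ (3 / 2 : ℝ) with hX
  set Y := u ^ (3 / 2 : ℝ) with hY
  have hu : 0 < u := ht.trans_le htu
  have hXp : 0 < X := Real.rpow_pos_of_pos ht _
  have hYp : 0 < Y := Real.rpow_pos_of_pos hu _
  have hXY : X ≤ Y := Real.rpow_le_rpow ht.le htu (by norm_num)
  have hWX : W X = U t := by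
    simp only [hWdef, hX]
    rw [← Real.rpow_mul ht.le]
    norm_num
  have hWY : W Y = U u := by
    simp only [hWdef, hY]
    rw [← Real.rpow_mul hu.le]
    norm_num
  have hW0 : W 0 = U 0 := by
    simp only [hWdef]
    rw [Real.zero_rpow (by norm_num)]
  have ha0 : 0 ≤ 1 - X / Y := by rw [sub_nonneg, div_le_one hYp]; exact hXY
  have hb0 : 0 ≤ X / Y := by positivity
  have hab : 1 - X / Y + X / Y = 1 := by ring
  have hc := hconv.2 (mem_Ici.2 (le_refl (0:ℝ))) (mem_Ici.2 hYp.le) ha0 hb0 hab
  have e1 : (1 - X / Y) • (0:ℝ) + (X / Y) • Y = X := by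
    simp only [smul_eq_mul, mul_zero, zero_add]
    field_simp
  rw [e1, hWX, hWY, hW0] at hc
  simp only [smul_eq_mul] at hc
  have l1 : Real.log (f 0 / f t) = U t - U 0 := by
    rw [Real.log_div (hf 0 le_rfl).ne' (hf t ht.le).ne']
    simp only [hUdef]
    ring
  have l2 : Real.log (f 0 / f u) = U u - U 0 := by
    rw [Real.log_div (hf 0 le_rfl).ne' (hf u hu.le).ne']
    simp only [hUdef]
    ring
  rw [l1, l2]
  have h5 : U t - U 0 ≤ X / Y * (U u - U 0) := by linarith
  calc (U t - U 0) * Y ≤ X / Y * (U u - U 0) * Y := mul_le_mul_of_nonneg_right h5 hYp.le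
    _ = (U u - U 0) * X := by field_simp

end Pool.Agent.Helper75.GR
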